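import Mathlib
import Pool.Agent.H23.Rewr
import Pool.Agent.H23.PR

set_option autoImplicit false

namespace Pool.Agent.Results.MP_86fe4b_lc.Undecidable

open Pool.Agent.H23 Pool.Agent.H23.Rewr

/-- Terms in the signature of implication and composition. -/
inductive Tm
  | var (n : ℕ) | imp (s t : Tm) | cmp (s t : Tm)

/-- The Gödel number of a term. -/
def code : Tm → ℕ
  | .var n => Nat.pair 0 n
  | .imp s t => Nat.pair 1 (Nat.pair (code s) (code t))
  | .cmp s t => Nat.pair 2 (Nat.pair (code s) (code t))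

/-- The value of a term in the algebra of subsets of `T`. -/
def ev {X : Type} (T : Set (X × X)) (v : ℕ → Set (X × X)) : Tm → Set (X × X)
  | .var n => v n
  | .imp s t => (T \ ev T v s) ∪ ev T v t
  | .cmp s t => {p | ∃ y, (p.1, y) ∈ ev T v s ∧ (y, p.2) ∈ ev T v t}

/-- Validity of an equation in all algebras of subsets of a transitive relation. -/
def Valid (s t : Tm) : Prop :=
  ∀ (X : Type) (T : Set (X × X)), (∀ x y z, (x, y) ∈ T → (y, z) ∈ T → (x, z) ∈ T) →
    ∀ v : ℕ → Set (X × X), (∀ n, v n ⊆ T) → ev T v s = ev T v t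

def un (s t : Tm) : Tm := (s.imp t).imp t
def top : Tm := (Tm.var 0).imp (.var 0)
def idl (e : Tm) : Tm := un (un e (top.cmp e)) ((un e (top.cmp e)).cmp top)
def bad : List (Tm × Tm) → Tm
  | [] => .var 0
  | r :: l => un ((r.1.imp r.2).imp (.var 0)) (bad l)

instance : Mul Tm := ⟨.cmp⟩

section
variable {X : Type} {T : Set (X × X)} (h : ∀ x y z, (x, y) ∈ T → (y, z) ∈ T → (x, z) ∈ T)
  {v : ℕ → Set (X × X)} (hv : ∀ n, v n ⊆ T)
include h hv

theorem ev_sub (s : Tm) : ev T v s ⊆ T := by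
  induction s with
  | var n => exact hv n
  | imp s t _ ih => exact Set.union_subset Set.sdiff_subset ih
  | cmp s t h1 h2 => exact fun p ⟨y, a, b⟩ => h _ _ _ (h1 a) (h2 b)

theorem ev_un (s t : Tm) (p : X × X) : p ∈ ev T v (un s t) ↔ p ∈ ev T v s ∨ p ∈ ev T v t := by
  have := @ev_sub _ _ h _ hv s p
  simp only [un, ev, Set.mem_union, Set.mem_sdiff]
  tauto

omit h in
theorem ev_top : ev T v top = T := Set.sdiff_union_of_subset (hv 0)

theorem ev_idl (e : Tm) (p : X × X) : p ∈ ev T v (idl e) ↔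
    ∃ q ∈ ev T v e, (p.1 = q.1 ∨ (p.1, q.1) ∈ T) ∧ (q.2 = p.2 ∨ (q.2, p.2) ∈ T) := by
  simp only [idl, ev_un h hv, ev, ev_top hv, Set.mem_ofPred_eq]
  constructor
  · rintro ((a | ⟨y, a, b⟩) | ⟨z, a | ⟨y, a, b⟩, c⟩)
    exacts [⟨_, a, .inl rfl, .inl rfl⟩, ⟨_, b, .inr a, .inl rfl⟩, ⟨_, a, .inl rfl, .inr c⟩,
      ⟨_, b, .inr a, .inr c⟩]
  · obtain ⟨x, y⟩ := p
    rintro ⟨⟨x', y'⟩, a, (rfl : x = x') | b, (rfl : y' = y) | c⟩
    exacts [.inl (.inl a), .inr ⟨_, .inl a, c⟩, .inl (.inr ⟨_, b, a⟩), .inr ⟨_, .inr ⟨_, b, a⟩, c⟩]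

theorem ev_bad (l : List (Tm × Tm)) (p : X × X) : p ∈ ev T v (bad l) ↔
    p ∈ v 0 ∨ ∃ r ∈ l, p ∈ ev T v r.1 ∧ p ∉ ev T v r.2 := by
  induction l with
  | nil => simp [bad, ev]
  | cons r l ih =>
    have := @ev_sub _ _ h _ hv r.1 p
    simp only [bad, ev_un h hv, ih, ev, Set.mem_union, Set.mem_sdiff, List.mem_cons,
      exists_eq_or_imp]
    tauto

end

theorem sem_map {M N : Type} [Mul M] [Mul N] (f : M → N) (hf : ∀ a b, f (a * b) = f a * f b)
    (ι : L → M) (w : Wd) : f (sem ι w) = sem (fun x => f (ι x)) w := by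
  obtain ⟨x, l⟩ := w
  simp only [sem]
  generalize ι x = m
  induction l generalizing m with
  | nil => rfl
  | cons y l ih => simp only [List.foldl, ih, hf]

/-- Relations absorbed by `z`, ordered by inclusion modulo `z`. -/
def Md {X : Type} (z : R X) := {a : R X // (∀ p, (a * z) p → z p) ∧ ∀ p, (z * a) p → z p}

instance {X : Type} (z : R X) : Monoid (Md z) := (inferInstance : Monoid (
  { carrier := {a | (∀ p, (a * z) p → z p) ∧ ∀ p, (z * a) p → z p}
    one_mem' := by simp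
    mul_mem' := fun {a b} h k => ⟨fun p => by
      rw [mul_assoc]; exact fun ⟨y, i, j⟩ => h.1 _ ⟨y, i, k.1 _ j⟩, fun p => by
      rw [← mul_assoc]; exact fun ⟨y, i, j⟩ => k.2 _ ⟨y, h.2 _ i, j⟩⟩ } : Submonoid (R X)))

instance {X : Type} (z : R X) : Preorder (Md z) where
  le a b := ∀ p, a.1 p → b.1 p ∨ z p
  le_refl _ _ := .inl
  le_trans _ _ _ h k p i := (h p i).elim (k p) .inr

instance {X : Type} (z : R X) : MulLeftMono (Md z) := ⟨fun a _ _ h _ ⟨y, i, j⟩ =>
  (h _ j).imp (fun k => ⟨y, i, k⟩) fun k => a.2.1 _ ⟨y, i, k⟩⟩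

instance {X : Type} (z : R X) : MulRightMono (Md z) := ⟨fun a _ _ h _ ⟨y, i, j⟩ =>
  (h _ i).imp (fun k => ⟨y, k, j⟩) fun k => a.2.2 _ ⟨y, k, j⟩⟩

theorem result : ¬ ∃ f : ℕ → Bool, Computable f ∧
    ∀ s t, f (Nat.pair (code s) (code t)) = true ↔ Valid s t := by
  rintro ⟨f, hf, h⟩
  obtain ⟨c, hc⟩ := exists_undec
  obtain ⟨g, hg⟩ := exists_injective_nat L
  let ι : L → Tm := fun x => .var (g x + 1)
  let z := idl (bad ((basic ++ rules c).map fun r => (sem ι r.1, sem ι r.2)))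
  let w : ℕ → Tm := fun n => Nat.rec (ι .N * ι (.a false)) (fun _ t => t * ι (.a true)) n
  let s : ℕ → Tm := fun n => (ι (.a false)).imp (un (w n * ι (.F c) * ι .DZ) z)
  have w1 : Primrec fun n => code (w n) := (Primrec.nat_rec₁ (code (w 0))
    (f := fun _ m => Nat.pair 2 (Nat.pair m (code (ι (.a true))))) (show Primrec _ by
      fun_prop)).of_eq fun n => by
    induction n with
    | zero => rfl
    | succ n ih => exact congrArg (fun m => Nat.pair 2 (Nat.pair m _)) ih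
  have s1 : Primrec fun n => code (s n) := by
    change Primrec fun n => Nat.pair 1 (Nat.pair _ (Nat.pair 1 (Nat.pair (Nat.pair 1 (Nat.pair
      (Nat.pair 2 (Nat.pair (Nat.pair 2 (Nat.pair (code (w n)) _)) _)) _)) _)))
    fun_prop
  have w2 : ∀ (M : Type) [Monoid M] (φ : Tm → M), (∀ a b, φ (a * b) = φ a * φ b) → ∀ n,
      φ (w n) = E (fun x => φ (ι x)) [n] := fun M _ φ k n => by
    induction n with
    | zero => simp [w, E, k]
    | succ n ih => exact (k _ _).trans (by rw [show φ _ = _ from ih]; simp [E, pow_succ, mul_assoc])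
  refine hc (ComputablePred.computable_iff.2 ⟨fun n => f (Nat.pair (code (s n)) (code top)),
    hf.comp (Primrec.to_comp (by fun_prop)), funext fun n => propext (Iff.trans ?_ (h _ _).symm)⟩)
  constructor
  · intro d X T t v hv
    let ψ : Tm → R X := ev T v
    have k : ∀ a, (∀ p, (ψ a * ψ z) p → ψ z p) ∧ ∀ p, (ψ z * ψ a) p → ψ z p := fun a => by
      refine ⟨fun p ⟨y, i, j⟩ => ?_, fun p ⟨y, j, i⟩ => ?_⟩ <;>
        obtain ⟨q, j1, j2, j3⟩ := (ev_idl t hv _ _).1 j <;> replace i := ev_sub t hv a i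
      · exact (ev_idl t hv _ _).2 ⟨q, j1, .inr (j2.elim (· ▸ i) (t _ _ _ i)), j3⟩
      · exact (ev_idl t hv _ _).2 ⟨q, j1, j2, .inr (j3.elim (· ▸ i) (t _ _ _ · i))⟩
    let φ : Tm → Md (ψ z) := fun a => ⟨ψ a, k a⟩
    have k1 : ∀ a b, φ (a * b) = φ a * φ b := fun _ _ => rfl
    have k2 : ∀ r ∈ basic ++ rules c, sem (fun x => φ (ι x)) r.1 ≤ sem (fun x => φ (ι x)) r.2 :=
      fun r hr p i => by
      rw [← sem_map φ k1] at i ⊢
      exact or_iff_not_imp_left.2 fun j => (ev_idl t hv _ _).2 ⟨p, (ev_bad t hv _ _).2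
        (.inr ⟨_, List.mem_map_of_mem hr, i, j⟩), .inl rfl, .inl rfl⟩
    obtain ⟨k3, k4⟩ := sim fun r hr => k2 r (List.mem_append_left _ hr)
    have k5 := (k3 _).trans (mul_le_mul_left (k4 c (fun r hr => k2 r (List.mem_append_right _ hr))
      _ _ (Part.get_mem d)) _)
    rw [← w2 _ φ k1, ← k1, ← k1] at k5
    rw [ev_top hv]
    exact (ev_sub t hv _).antisymm fun p i => or_iff_not_imp_left.2 fun j =>
      (ev_un t hv _ _ _).2 (k5 p (not_not.1 fun k => j ⟨i, k⟩))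
  · intro d
    let v : ℕ → Set (_ × _) := fun m => {p | ∃ x, g x + 1 = m ∧ std x p}
    have hv : ∀ n, v n ⊆ Set.univ := fun _ => Set.subset_univ _
    have t : ∀ x y z : Stream' (List ℕ), (x, y) ∈ Set.univ → (y, z) ∈ Set.univ →
      (x, z) ∈ Set.univ := fun _ _ _ _ _ => trivial
    let ψ : Tm → R _ := ev Set.univ v
    have k : (fun x => ψ (ι x)) = std := funext fun x => Set.ext fun p =>
      ⟨fun ⟨y, i, j⟩ => hg (Nat.succ_injective i) ▸ j, fun i => ⟨x, rfl, i⟩⟩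
    have k1 : ∀ a b, ψ (a * b) = ψ a * ψ b := fun _ _ => rfl
    have e := Set.ext_iff.1 (d _ _ t v hv) (Stream'.const [], Stream'.cons [0] (Stream'.const []))
    rw [ev_top hv] at e
    rcases (ev_un t hv _ _ _).1 ((e.2 trivial).resolve_left fun i => i.2 ⟨_, rfl, by
      simp [std, app]⟩) with ⟨_, ⟨y, i, j⟩, -⟩ | i
    · change ψ _ _ at i
      rw [w2 (R _) _ k1, k] at i
      obtain ⟨u, j, -⟩ : std (.F c) (y, _) := cast (congrFun (congrFun k (.F c)) _) j
      rw [show y = _ from (std_E _ _).1 i] at j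
      exact Part.dom_iff_mem.2 ⟨u, j⟩
    · obtain ⟨q, i, -⟩ := (ev_idl t hv _ _).1 i
      rcases (ev_bad t hv _ _).1 i with ⟨_, i, -⟩ | ⟨_, i, j1, j2⟩
      · cases i
      obtain ⟨r, i', rfl⟩ := List.mem_map.1 i
      change ψ _ _ at j1
      change ¬ ψ _ _ at j2
      rw [sem_map ψ k1, k] at j1 j2
      exact absurd ((List.mem_append.1 i').elim (std_basic r) (std_rules c r) ▸ j1) j2

end Pool.Agent.Results.MP_86fe4b_lc.Undecidable
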